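import Mathlib
import Pool.Agent.H.MP_9f28a9_al.B

namespace Pool.Agent.Results.MP_9f28a9_al.NoGeneric

open MulOpposite

/-- A pp formula in one free variable `x` for right `R`-modules:
there are `y i` with `x a j + sum_i (y i) (b j i) = 0` for all `j`. -/
structure PP (R : Type) where
  n : ℕ
  m : ℕ
  a : Fin m → R
  b : Fin m → Fin n → R

variable {R : Type} [Ring R]

/-- The solution set of a pp formula in a right module. -/
def PP.sol (φ : PP R) (M : Type) [AddCommGroup M] [Module Rᵐᵒᵖ M] : Set M :=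
  {x | ∃ y : Fin φ.n → M, ∀ j, op (φ.a j) • x + ∑ i, op (φ.b j i) • y i = 0}

/-- `ψ ≤ φ` : the pair is a pp-pair. -/
def IsPair (φ ψ : PP R) : Prop :=
  ∀ (M : Type) [AddCommGroup M] [Module Rᵐᵒᵖ M], ψ.sol M ⊆ φ.sol M

/-- Pure embeddings of right modules. -/
def IsPureEmb {A B : Type} [AddCommGroup A] [Module Rᵐᵒᵖ A] [AddCommGroup B] [Module Rᵐᵒᵖ B]
    (f : A →ₗ[Rᵐᵒᵖ] B) : Prop :=
  Function.Injective f ∧ ∀ (n m : ℕ) (r : Fin m → Fin n → R) (a : Fin m → A),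
    (∃ y : Fin n → B, ∀ j, ∑ i, op (r j i) • y i = f (a j)) →
      ∃ x : Fin n → A, ∀ j, ∑ i, op (r j i) • x i = a j

variable (R) in
/-- Pure-injective right modules. -/
def PureInj (M : Type) [AddCommGroup M] [Module Rᵐᵒᵖ M] : Prop :=
  ∀ (A B : Type) [AddCommGroup A] [Module Rᵐᵒᵖ A] [AddCommGroup B] [Module Rᵐᵒᵖ B]
    (f : A →ₗ[Rᵐᵒᵖ] B), IsPureEmb f → ∀ g : A →ₗ[Rᵐᵒᵖ] M, ∃ h : B →ₗ[Rᵐᵒᵖ] M, ∀ x, h (f x) = g x

variable (R) in
/-- Indecomposable right modules. -/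
def Indec (M : Type) [AddCommGroup M] [Module Rᵐᵒᵖ M] : Prop :=
  Nontrivial M ∧ ∀ U W : Submodule Rᵐᵒᵖ M, IsCompl U W → U = ⊥ ∨ W = ⊥

variable (R) in
/-- Indecomposable pure-injective right modules. -/
def Pt : Type 1 := {N : ModuleCat.{0} Rᵐᵒᵖ // Indec R N ∧ PureInj R N}

variable (R) in
/-- Isomorphism of modules. -/
def isoSetoid : Setoid (Pt R) where
  r N N' := Nonempty (N.1 ≃ₗ[Rᵐᵒᵖ] N'.1)
  iseqv := ⟨fun _ => ⟨LinearEquiv.refl _ _⟩, fun ⟨f⟩ => ⟨f.symm⟩, fun ⟨f⟩ ⟨g⟩ => ⟨f.trans g⟩⟩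

variable (R) in
/-- The points of the spectrum: isomorphism classes of indecomposable pure-injectives. -/
def Zg : Type 1 := Quotient (isoSetoid R)

/-- The set of points on which the pair is closed. -/
def closedOn (φ ψ : PP R) : Set (Zg R) :=
  {q | ∃ N : Pt R, Quotient.mk (isoSetoid R) N = q ∧ φ.sol N.1 = ψ.sol N.1}

variable (R) in
/-- The rep-Zariski topology. -/
def zar : TopologicalSpace (Zg R) :=
  TopologicalSpace.generateFrom {U | ∃ φ ψ : PP R, IsPair φ ψ ∧ U = closedOn φ ψ}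

open Pool.Agent.H.MP_9f28a9_al

def Ann (r : Rᵐᵒᵖ) : Set (Zg R) :=
  {q | ∃ N : Pt R, Quotient.mk (isoSetoid R) N = q ∧ ∀ x : N.1, r • x = 0}

lemma mem_ann (r : Rᵐᵒᵖ) (N : Pt R) :
    Quotient.mk (isoSetoid R) N ∈ Ann r ↔ ∀ x : N.1, r • x = 0 := by
  refine ⟨?_, fun h => ⟨N, rfl, h⟩⟩
  rintro ⟨N', h, h'⟩ x
  obtain ⟨f⟩ := Quotient.exact h
  obtain ⟨y, rfl⟩ := f.surjective x
  rw [← map_smul, h', map_zero]

lemma ann_open (r : Rᵐᵒᵖ) : @IsOpen _ (zar R) (Ann r) := by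
  refine TopologicalSpace.GenerateOpen.basic _ ⟨⟨0, 0, Fin.elim0, Fin.elim0⟩,
    ⟨0, 1, fun _ => r.unop, fun _ => Fin.elim0⟩, fun M _ _ x _ => ⟨Fin.elim0, fun j => j.elim0⟩, ?_⟩
  refine Set.ext fun q => exists_congr fun N => and_congr_right fun _ => ?_
  simp [PP.sol, Set.ext_iff]

lemma closedOn_eq (reg : ∀ a : Rᵐᵒᵖ, ∃ x, a * x * a = a) (φ ψ : PP R) (h : IsPair φ ψ) :
    ∃ r, closedOn φ ψ = Ann r := by
  obtain ⟨ε, h1, h2⟩ := pp_idem reg φ.n φ.m (fun j => op (φ.a j)) (fun j i => op (φ.b j i))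
  obtain ⟨η, -, h4⟩ := pp_idem reg ψ.n ψ.m (fun j => op (ψ.a j)) (fun j i => op (ψ.b j i))
  refine ⟨(1 - η) * ε, Set.ext fun q => exists_congr fun N => and_congr_right fun _ => ?_⟩
  constructor
  · intro h5 x
    have h6 : ε • x ∈ φ.sol N.1 := (h2 _ _).2 (by rw [smul_smul, h1])
    rw [h5] at h6
    rw [mul_smul, sub_smul, one_smul, (h4 _ _).1 h6, sub_self]
  · intro h5
    refine Set.Subset.antisymm (fun x hx => (h4 _ _).2 ?_) (h _)
    have := h5 x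
    rw [mul_smul, (h2 _ _).1 hx, sub_smul, one_smul, sub_eq_zero] at this
    exact this.symm

lemma open_sub (reg : ∀ a : Rᵐᵒᵖ, ∃ x, a * x * a = a) (u : Set (Zg R)) (hu : @IsOpen _ (zar R) u) :
    ∀ q ∈ u, ∃ F : Finset Rᵐᵒᵖ, (∀ r ∈ F, q ∈ Ann r) ∧ ∀ q', (∀ r ∈ F, q' ∈ Ann r) → q' ∈ u := by
  classical
  induction hu with
  | basic s hs =>
    obtain ⟨φ, ψ, h, rfl⟩ := hs
    obtain ⟨r, hr⟩ := closedOn_eq reg φ ψ h
    intro q hq
    rw [hr] at hq ⊢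
    exact ⟨{r}, by simpa using hq, fun q' h => by simpa using h⟩
  | univ => exact fun q _ => ⟨∅, by simp, by simp⟩
  | inter s t _ _ ih ih' =>
    intro q hq
    obtain ⟨F, h1, h2⟩ := ih q hq.1
    obtain ⟨F', h1', h2'⟩ := ih' q hq.2
    exact ⟨F ∪ F', fun r hr => (Finset.mem_union.1 hr).elim (h1 r) (h1' r), fun q' h =>
      ⟨h2 q' fun r hr => h r (Finset.mem_union_left _ hr),
        h2' q' fun r hr => h r (Finset.mem_union_right _ hr)⟩⟩
  | sUnion S _ ih =>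
    rintro q ⟨s, hs, hq⟩
    obtain ⟨F, h1, h2⟩ := ih s hs q hq
    exact ⟨F, h1, fun q' h => ⟨s, hs, h2 q' h⟩⟩

lemma exists_pt {P : Rᵐᵒᵖ → Prop} {e : Rᵐᵒᵖ} (h : Hyp Rᵐᵒᵖ P e) (F : Finset Rᵐᵒᵖ)
    (hF : ∀ r ∈ F, P r) : ∃ q : Zg R, (∀ c, q ∈ Ann c → P c) ∧ ∀ r ∈ F, q ∈ Ann r := by
  obtain ⟨E, _, _, s, h1, h2, h3, h4, h5⟩ := h.exists_mod F hF
  let N : Pt R := ⟨ModuleCat.of _ E, ⟨⟨s, 0, h2⟩, fun U W hUW => by
    by_contra hc
    obtain ⟨hU, hW⟩ := not_or.1 hc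
    obtain ⟨x, hx, hx0⟩ := Submodule.exists_mem_ne_zero_of_ne_bot hU
    obtain ⟨y, hy, hy0⟩ := Submodule.exists_mem_ne_zero_of_ne_bot hW
    obtain ⟨r, hr⟩ := h3 x hx0
    obtain ⟨t, ht⟩ := h3 y hy0
    exact h2 (Submodule.disjoint_def.1 hUW.disjoint s (hr ▸ U.smul_mem r hx)
      (ht ▸ W.smul_mem t hy))⟩, fun A B _ _ _ _ f hf g => h1.out f hf.1 g⟩
  exact ⟨Quotient.mk _ N, fun c hc => h5 c ((mem_ann c N).1 hc),
    fun r hr => (mem_ann r N).2 (h4 r hr)⟩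

/-- There is a ring with an irreducible closed subset of the rep-Zariski spectrum that has no
generic point. -/
theorem result : ∃ (R : Type) (_ : Ring R) (C : Set (Zg R)),
    @IsClosed _ (zar R) C ∧ @IsIrreducible _ (zar R) C ∧
      ∀ q ∈ C, @closure _ (zar R) {q} ≠ C := by
  classical
  obtain ⟨R, _, P0, e0, h0⟩ := exists_ring
  have h := h0.op
  set P : Rᵐᵒᵖ → Prop := fun a => P0 a.unop
  set e := op e0
  letI := zar R
  refine ⟨R, inferInstance, {q | ∀ c, q ∈ Ann c → P c}, ?_, ⟨?_, ?_⟩, ?_⟩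
  · have : {q : Zg R | ∀ c, q ∈ Ann c → P c} = ⋂ c : {c // ¬ P c}, (Ann c.1)ᶜ := by
      ext q
      simp only [Set.mem_setOf_eq, Set.mem_iInter, Set.mem_compl_iff, Subtype.forall]
      exact forall_congr' fun c => not_imp_not.symm
    rw [this]
    exact isClosed_iInter fun c => (ann_open c.1).isClosed_compl
  · obtain ⟨q, hq, -⟩ := exists_pt h ∅ (by simp)
    exact ⟨q, hq⟩
  · rintro u v hu hv ⟨q, hq, hqu⟩ ⟨q', hq', hqv⟩
    obtain ⟨F, h1, h2⟩ := open_sub h.reg u hu q hqu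
    obtain ⟨F', h1', h2'⟩ := open_sub h.reg v hv q' hqv
    obtain ⟨z, hz, hz'⟩ := exists_pt h (F ∪ F') fun r hr =>
      (Finset.mem_union.1 hr).elim (fun hr => hq r (h1 r hr)) (fun hr => hq' r (h1' r hr))
    exact ⟨z, hz, h2 z fun r hr => hz' r (Finset.mem_union_left _ hr),
      h2' z fun r hr => hz' r (Finset.mem_union_right _ hr)⟩
  · intro q hq hcl
    obtain ⟨N, rfl⟩ := Quotient.exists_rep q
    have h1 : ∀ r, P r → ∀ x : N.1, r • x = 0 := by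
      intro r hr
      obtain ⟨z, hz, hz'⟩ := exists_pt h {r} (by simpa using hr)
      have h2 := hcl.ge hz
      obtain ⟨w, hw, hw'⟩ := mem_closure_iff.1 h2 _ (ann_open r) (hz' r (by simp))
      rw [Set.mem_singleton_iff.1 hw'] at hw
      exact (mem_ann r N).1 hw
    let p : N.1 →ₗ[Rᵐᵒᵖ] N.1 :=
      { toFun := fun x => e • x
        map_add' := smul_add e
        map_smul' := fun a x => by
          have := h1 _ (h.comm a).1 x
          rw [sub_smul, mul_smul, mul_smul, sub_eq_zero] at this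
          exact this }
    have hp : IsIdempotentElem (p : Module.End Rᵐᵒᵖ N.1) :=
      LinearMap.ext fun x => by
        change e • e • x = e • x
        rw [smul_smul, h.idem]
    rcases N.2.1.2 _ _ (LinearMap.IsIdempotentElem.isCompl hp) with h2 | h2
    · refine h.he (hq e ((mem_ann e N).2 fun x => ?_))
      exact (Submodule.eq_bot_iff _).1 h2 _ ⟨x, rfl⟩
    · refine h.he' (hq _ ((mem_ann _ N).2 fun x => ?_))
      refine (Submodule.eq_bot_iff _).1 h2 _ ?_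
      change e • (1 - e) • x = 0
      rw [smul_smul, mul_sub, mul_one, h.idem, sub_self, zero_smul]

end Pool.Agent.Results.MP_9f28a9_al.NoGeneric
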